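import Pool.Agent.QSB.StmtsT

/-! # Squad QSB, row SYH (helper63): `Sym (datH p d 𝔻)` -/

set_option autoImplicit false

namespace Pool.Agent.QSB.H63

open Matrix Finset Pool.Agent.QSX Pool.Agent.QSN

section

variable {p d k : ℕ}

/-- the Lie algebra (blocks) -/
def gB (p d : ℕ) {k : ℕ} (𝔻 : Subalgebra ℝ (Matrix (Fin k) (Fin k) ℝ)) :
    Submodule ℝ (Matrix (Fin (2 * p + d)) (Fin (2 * p + d)) (Matrix (Fin k) (Fin k) ℝ)) where
  carrier := {x | (∀ i j, x i j ∈ 𝔻) ∧ ∀ i j, x (sg p d j) (sg p d i) = -(x i j)ᵀ}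
  add_mem' := by
    intro x y hx hy
    refine ⟨fun i j => ?_, fun i j => ?_⟩
    · rw [Matrix.add_apply]; exact 𝔻.add_mem (hx.1 i j) (hy.1 i j)
    · rw [Matrix.add_apply, Matrix.add_apply, hx.2 i j, hy.2 i j, Matrix.transpose_add, neg_add]
  zero_mem' := ⟨fun _ _ => 𝔻.zero_mem, fun i j => by simp⟩
  smul_mem' := by
    intro r x hx
    refine ⟨fun i j => ?_, fun i j => ?_⟩
    · rw [Matrix.smul_apply]; exact 𝔻.smul_mem (hx.1 i j) r
    · rw [Matrix.smul_apply, Matrix.smul_apply, hx.2 i j, Matrix.transpose_smul, smul_neg]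

/-- the Lie algebra -/
noncomputable def gH (p d : ℕ) {k : ℕ} (𝔻 : Subalgebra ℝ (Matrix (Fin k) (Fin k) ℝ)) :
    Submodule ℝ (Matrix (Fin ((2 * p + d) * k)) (Fin ((2 * p + d) * k)) ℝ) where
  carrier := {z | ∃ x ∈ gB p d 𝔻, z = blk k (2 * p + d) x}
  add_mem' := by
    rintro _ _ ⟨x, hx, rfl⟩ ⟨y, hy, rfl⟩
    exact ⟨_, (gB p d 𝔻).add_mem hx hy, (map_add _ _ _).symm⟩
  zero_mem' := ⟨0, (gB p d 𝔻).zero_mem, (map_zero _).symm⟩
  smul_mem' := by
    rintro r _ ⟨x, hx, rfl⟩
    exact ⟨_, (gB p d 𝔻).smul_mem r hx, (map_smul _ _ _).symm⟩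

/-- the regular element -/
noncomputable def aa (p d : ℕ) (i : Fin (2 * p + d)) : ℝ :=
  if (i : ℕ) < p then (p : ℝ) - (i : ℕ)
  else if (i : ℕ) < p + d then 0 else (p : ℝ) + d - 1 - (i : ℕ)

theorem aa_sg (i : Fin (2 * p + d)) : aa p d (sg p d i) = - aa p d i := by
  have hi := i.2
  by_cases h : Md p d i
  · rw [sg_mid h]
    have h' := h
    unfold Md at h'
    unfold aa
    rw [if_neg (by omega), if_pos (by omega), neg_zero]
  · rw [sg_out h]
    unfold Md at h
    unfold aa
    rw [Fin.val_rev]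
    by_cases h1 : (i : ℕ) < p
    · rw [if_neg (by omega), if_neg (by omega), if_pos h1]
      have h2 : ((2 * p + d - ((i : ℕ) + 1) : ℕ) : ℝ) = 2 * (p : ℝ) + d - ((i : ℕ) + 1) := by
        rw [Nat.cast_sub (by omega)]
        push_cast
        ring
      rw [h2]
      ring
    · rw [if_pos (by omega), if_neg h1, if_neg (by omega)]
      have h2 : ((2 * p + d - ((i : ℕ) + 1) : ℕ) : ℝ) = 2 * (p : ℝ) + d - ((i : ℕ) + 1) := by
        rw [Nat.cast_sub (by omega)]
        push_cast
        ring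
      rw [h2]
      ring

theorem aa_lt {i j : Fin (2 * p + d)} (h : i < j) (h2 : ¬ (Md p d i ∧ Md p d j)) :
    aa p d j < aa p d i := by
  unfold Md at h2
  rw [Fin.lt_def] at h
  have hj := j.2
  unfold aa
  by_cases hip : (i : ℕ) < p
  · have h3 : ((i : ℕ) : ℝ) < p := by exact_mod_cast hip
    rw [if_pos hip]
    by_cases hjp : (j : ℕ) < p
    · rw [if_pos hjp]
      have h4 : ((i : ℕ) : ℝ) < (j : ℕ) := by exact_mod_cast h
      linarith
    · rw [if_neg hjp]
      by_cases hjd : (j : ℕ) < p + d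
      · rw [if_pos hjd]
        linarith
      · rw [if_neg hjd]
        have h4 : (p : ℝ) + d ≤ (j : ℕ) := by
          have : p + d ≤ (j : ℕ) := by omega
          exact_mod_cast this
        linarith
  · rw [if_neg hip, if_neg (by omega : ¬ (j : ℕ) < p)]
    have hjd : ¬ (j : ℕ) < p + d := by
      intro h3
      exact h2 ⟨⟨by omega, by omega⟩, ⟨by omega, h3⟩⟩
    rw [if_neg hjd]
    have h4 : (p : ℝ) + d ≤ (j : ℕ) := by
      have : p + d ≤ (j : ℕ) := by omega
      exact_mod_cast this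
    by_cases hid : (i : ℕ) < p + d
    · rw [if_pos hid]
      linarith
    · rw [if_neg hid]
      have h5 : ((i : ℕ) : ℝ) < (j : ℕ) := by exact_mod_cast h
      linarith

theorem aa_md {i j : Fin (2 * p + d)} (hi : Md p d i) (hj : Md p d j) :
    aa p d i = aa p d j := by
  unfold Md at hi hj
  unfold aa
  rw [if_neg (by omega), if_pos (by omega), if_neg (by omega), if_pos (by omega)]

theorem aa_lt_iff {i j : Fin (2 * p + d)} :
    aa p d j < aa p d i ↔ i < j ∧ ¬ (Md p d i ∧ Md p d j) := by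
  constructor
  · intro h
    have h2 : ¬ (Md p d i ∧ Md p d j) := by
      rintro ⟨hi, hj⟩
      rw [aa_md hi hj] at h
      exact lt_irrefl _ h
    refine ⟨?_, h2⟩
    rcases lt_trichotomy i j with h3 | h3 | h3
    · exact h3
    · rw [h3] at h
      exact absurd h (lt_irrefl _)
    · exact absurd (aa_lt h3 fun h4 => h2 ⟨h4.2, h4.1⟩) (lt_asymm h)
  · rintro ⟨h, h2⟩
    exact aa_lt h h2

theorem aa_eq {i j : Fin (2 * p + d)} (h : aa p d i = aa p d j) :
    i = j ∨ (Md p d i ∧ Md p d j) := by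
  by_contra hc
  rw [not_or] at hc
  rcases lt_trichotomy i j with h3 | h3 | h3
  · exact absurd (aa_lt h3 hc.2) (by rw [h]; exact lt_irrefl _)
  · exact hc.1 h3
  · exact absurd (aa_lt h3 fun h4 => hc.2 ⟨h4.2, h4.1⟩) (by rw [h]; exact lt_irrefl _)

theorem gB_mul {𝔻 : Subalgebra ℝ (Matrix (Fin k) (Fin k) ℝ)}
    {x y : Matrix (Fin (2 * p + d)) (Fin (2 * p + d)) (Matrix (Fin k) (Fin k) ℝ)}
    (hx : x ∈ gB p d 𝔻) (hy : y ∈ gB p d 𝔻) : x * y - y * x ∈ gB p d 𝔻 := by
  have key : ∀ x ∈ gB p d 𝔻, ∀ y ∈ gB p d 𝔻, ∀ i j,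
      (x * y) (sg p d j) (sg p d i) = ((y * x) i j)ᵀ := by
    intro x hx y hy i j
    rw [Matrix.mul_apply, Matrix.mul_apply, Matrix.transpose_sum,
      ← Equiv.sum_comp (Function.Involutive.toPerm (sg p d) sg_sg)]
    refine Finset.sum_congr rfl fun l _ => ?_
    rw [Function.Involutive.coe_toPerm, hx.2 l j, hy.2 i l, neg_mul_neg,
      Matrix.transpose_mul]
  have key2 : ∀ x ∈ gB p d 𝔻, ∀ y ∈ gB p d 𝔻, ∀ i j, (x * y) i j ∈ 𝔻 := by
    intro x hx y hy i j
    rw [Matrix.mul_apply]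
    exact 𝔻.sum_mem fun l _ => 𝔻.mul_mem (hx.1 i l) (hy.1 l j)
  refine ⟨fun i j => ?_, fun i j => ?_⟩
  · rw [Matrix.sub_apply]
    exact 𝔻.sub_mem (key2 x hx y hy i j) (key2 y hy x hx i j)
  · rw [Matrix.sub_apply, Matrix.sub_apply, key x hx y hy, key y hy x hx, Matrix.transpose_sub]
    abel

theorem dia_gB {𝔻 : Subalgebra ℝ (Matrix (Fin k) (Fin k) ℝ)} {c : Fin (2 * p + d) → ℝ}
    (hc : ∀ i, c (sg p d i) = - c i) : dia k c ∈ gB p d 𝔻 := by
  refine ⟨fun i j => ?_, fun i j => ?_⟩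
  · rw [dia]
    by_cases h : i = j
    · subst h
      rw [diagonal_apply_eq]
      exact 𝔻.smul_mem 𝔻.one_mem _
    · rw [diagonal_apply_ne _ h]
      exact 𝔻.zero_mem
  · rw [dia]
    by_cases h : i = j
    · subst h
      rw [diagonal_apply_eq, diagonal_apply_eq, hc, Matrix.transpose_smul, Matrix.transpose_one,
        neg_smul]
    · have h2 : sg p d j ≠ sg p d i := by
        intro h3
        apply h
        have h4 := congrArg (sg p d) h3
        rw [sg_sg, sg_sg] at h4
        exact h4.symm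
      rw [diagonal_apply_ne _ h, diagonal_apply_ne _ h2, Matrix.transpose_zero, neg_zero]

/-- the transpose of the blocks -/
theorem blk_tr {n : ℕ} (x : Matrix (Fin n) (Fin n) (Matrix (Fin k) (Fin k) ℝ)) :
    (blk k n x)ᵀ = blk k n (Matrix.of fun i j => (x j i)ᵀ) := by
  apply blk_ext
  intro i i' j j'
  rw [Matrix.transpose_apply, blk_apply, blk_apply, Matrix.of_apply, Matrix.transpose_apply]

end

theorem syh (dsc : DscStmt) : SyhStmt := by
  intro p d k 𝔻 hk hD
  have hb : ∀ c : Fin ((2 * p + d) * k) → ℝ, c ∈ (datH p d 𝔻).b ↔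
      ∃ c' : Fin (2 * p + d) → ℝ, (∀ i, c' (sg p d i) = - c' i) ∧ c = cst k (2 * p + d) c' :=
    fun c => Iff.rfl
  have hn : ∀ z : Matrix (Fin ((2 * p + d) * k)) (Fin ((2 * p + d) * k)) ℝ, z ∈ (datH p d 𝔻).n ↔
      ∃ x ∈ nH p d 𝔻, z = blk k (2 * p + d) x := fun z => Iff.rfl
  refine ⟨{
    g := gH p d 𝔻
    lie := ?_
    tr := ?_
    b_mem := ?_
    a₀ := ⟨cst k (2 * p + d) (aa p d), (hb _).2 ⟨aa p d, aa_sg, rfl⟩⟩
    n_mem := ?_
    reg := ?_ }⟩
  · rintro _ ⟨x, hx, rfl⟩ _ ⟨y, hy, rfl⟩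
    refine ⟨x * y - y * x, gB_mul hx hy, ?_⟩
    rw [map_sub, map_mul, map_mul]
    rfl
  · rintro _ ⟨x, hx, rfl⟩
    refine ⟨Matrix.of fun i j => (x j i)ᵀ, ⟨fun i j => ?_, fun i j => ?_⟩, blk_tr x⟩
    · rw [Matrix.of_apply]
      exact hD.1 _ (hx.1 j i)
    · rw [Matrix.of_apply, Matrix.of_apply, hx.2 j i, Matrix.transpose_neg]
  · suffices hbm : ∀ c : Fin ((2 * p + d) * k) → ℝ,
        (∃ c' : Fin (2 * p + d) → ℝ, (∀ i, c' (sg p d i) = - c' i) ∧
          c = cst k (2 * p + d) c') ↔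
        (diagonal c : Matrix (Fin ((2 * p + d) * k)) (Fin ((2 * p + d) * k)) ℝ) ∈ gH p d 𝔻 from hbm
    intro c
    constructor
    · rintro ⟨c', hc', e⟩
      refine ⟨dia k c', dia_gB hc', ?_⟩
      rw [blk_dia, e]
    · rintro ⟨x, hx, e⟩
      have h0 : ∀ i j l l', x i j l l' =
          (diagonal c : Matrix (Fin ((2 * p + d) * k)) (Fin ((2 * p + d) * k)) ℝ)
            (finProdFinEquiv (i, l)) (finProdFinEquiv (j, l')) := by
        intro i j l l'
        rw [e, blk_apply]
      have hs : ∀ i, (x i i)ᵀ = x i i := by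
        intro i
        ext l l'
        rw [Matrix.transpose_apply, h0, h0]
        by_cases h : l = l'
        · rw [h]
        · have h1 : finProdFinEquiv (i, l) ≠ finProdFinEquiv (i, l') := fun h2 =>
            h (Prod.ext_iff.1 (finProdFinEquiv.injective h2)).2
          rw [diagonal_apply_ne _ h1, diagonal_apply_ne _ h1.symm]
      choose r hr using fun i => dsc k 𝔻 hk hD (x i i) (hx.1 i i) (hs i)
      have hc : ∀ i l, c (finProdFinEquiv (i, l)) = r i := by
        intro i l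
        have h1 := h0 i i l l
        rw [diagonal_apply_eq, hr i, Matrix.smul_apply, Matrix.one_apply_eq, smul_eq_mul,
          mul_one] at h1
        exact h1.symm
      refine ⟨r, fun i => ?_, ?_⟩
      · have h1 := hx.2 i i
        rw [hr, hr] at h1
        have h2 := congrFun (congrFun h1 ⟨0, hk⟩) ⟨0, hk⟩
        rw [Matrix.transpose_smul, Matrix.transpose_one, Matrix.neg_apply, Matrix.smul_apply,
          Matrix.smul_apply, Matrix.one_apply_eq, smul_eq_mul, smul_eq_mul, mul_one,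
          mul_one] at h2
        exact h2
      · funext q
        obtain ⟨⟨i, l⟩, rfl⟩ := finProdFinEquiv.surjective q
        rw [cst_apply]
        exact hc i l
  · suffices hnm : ∀ z : Matrix (Fin ((2 * p + d) * k)) (Fin ((2 * p + d) * k)) ℝ,
        (∃ x ∈ nH p d 𝔻, z = blk k (2 * p + d) x) ↔
        z ∈ gH p d 𝔻 ∧ ∀ q q' : Fin ((2 * p + d) * k), z q q' ≠ 0 →
          cst k (2 * p + d) (aa p d) q' < cst k (2 * p + d) (aa p d) q from hnm
    intro z
    constructor
    · rintro ⟨x, hx, rfl⟩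
      refine ⟨⟨x, ⟨hx.1.1, hx.2.1⟩, rfl⟩, ?_⟩
      intro q q' h
      obtain ⟨⟨i, l⟩, rfl⟩ := finProdFinEquiv.surjective q
      obtain ⟨⟨j, l'⟩, rfl⟩ := finProdFinEquiv.surjective q'
      rw [cst_apply, cst_apply, aa_lt_iff]
      have h1 : x i j ≠ 0 := by
        intro h2
        apply h
        have h3 := blk_apply x i j l l'
        rw [h2, Matrix.zero_apply] at h3
        exact h3
      refine ⟨?_, fun h2 => h1 (hx.2.2 i j h2.1 h2.2)⟩
      by_contra h2
      exact h1 (hx.1.2 i j (not_lt.1 h2))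
    · rintro ⟨⟨x, hx, rfl⟩, h⟩
      have h1 : ∀ i j, x i j ≠ 0 → i < j ∧ ¬ (Md p d i ∧ Md p d j) := by
        intro i j h2
        rw [← aa_lt_iff]
        have h3 : ∃ l l', x i j l l' ≠ 0 := by
          by_contra h4
          push Not at h4
          exact h2 (Matrix.ext h4)
        obtain ⟨l, l', h3⟩ := h3
        have h4 := h (finProdFinEquiv (i, l)) (finProdFinEquiv (j, l')) (by
          have h5 := blk_apply x i j l l'
          intro h6
          apply h3
          rw [← h5]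
          exact h6)
        have h5 : cst k (2 * p + d) (aa p d) (finProdFinEquiv (j, l')) <
          cst k (2 * p + d) (aa p d) (finProdFinEquiv (i, l)) := h4
        rwa [cst_apply, cst_apply] at h5
      refine ⟨x, ⟨⟨hx.1, fun i j h2 => ?_⟩, hx.2, fun i j hi hj => ?_⟩, rfl⟩
      · by_contra h3
        exact absurd (h1 i j h3).1 (not_lt.2 h2)
      · by_contra h3
        exact (h1 i j h3).2 ⟨hi, hj⟩
  · rintro _ ⟨x, hx, rfl⟩ hsym hcom
    have hsym' : (blk k (2 * p + d) x)ᵀ = blk k (2 * p + d) x := hsym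
    have hcom' : diagonal (cst k (2 * p + d) (aa p d)) * blk k (2 * p + d) x =
      blk k (2 * p + d) x * diagonal (cst k (2 * p + d) (aa p d)) := hcom
    have hs : ∀ i j, (x i j)ᵀ = x j i := by
      intro i j
      ext l l'
      have h1 := congrFun (congrFun hsym' (finProdFinEquiv (j, l))) (finProdFinEquiv (i, l'))
      rw [Matrix.transpose_apply, blk_apply, blk_apply] at h1
      rw [Matrix.transpose_apply, h1]
    have hz : ∀ i j, i ≠ j → x i j = 0 := by
      intro i j hij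
      by_cases h : aa p d i = aa p d j
      · rcases aa_eq h with h2 | h2
        · exact absurd h2 hij
        · have h3 := hx.2 i j
          rw [sg_mid h2.1, sg_mid h2.2, hs i j] at h3
          have h4 : x j i = 0 := by
            ext l l'
            have h5 := congrFun (congrFun h3 l) l'
            rw [Matrix.neg_apply] at h5
            rw [Matrix.zero_apply]
            linarith
          rw [← hs j i, h4, Matrix.transpose_zero]
      · ext l l'
        have h1 := congrFun (congrFun hcom' (finProdFinEquiv (i, l))) (finProdFinEquiv (j, l'))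
        rw [Matrix.diagonal_mul, Matrix.mul_diagonal, blk_apply, cst_apply, cst_apply] at h1
        have h2 : (aa p d i - aa p d j) * x i j l l' = 0 := by
          rw [sub_mul, h1]
          ring
        rcases mul_eq_zero.1 h2 with h3 | h3
        · exact absurd (sub_eq_zero.1 h3) h
        · rw [h3, Matrix.zero_apply]
    choose r hr using fun i => dsc k 𝔻 hk hD (x i i) (hx.1 i i) (hs i i)
    refine ⟨cst k (2 * p + d) r, ?_⟩
    show blk k (2 * p + d) x = diagonal (cst k (2 * p + d) r)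
    rw [← blk_dia]
    congr 1
    ext1 i j
    rw [dia]
    by_cases h : i = j
    · subst h
      rw [diagonal_apply_eq, hr i]
    · rw [diagonal_apply_ne _ h, hz i j h]

end Pool.Agent.QSB.H63
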