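import Pool.Agent.QSB.StmtsS

/-!
# Squad QSB, row TRI: the bracket of a weight vector with its transpose
-/

set_option autoImplicit false

namespace Pool.Agent.QSB.H63

open Matrix Finset Pool.Agent.QSX Pool.Agent.QSB

theorem tri_pos {m : ℕ} {x : Matrix (Fin m) (Fin m) ℝ} (hx : x ≠ 0) :
    0 < Matrix.trace (x * xᵀ) := by
  have h : Matrix.trace (x * xᵀ) = ∑ i, ∑ j, x i j * x i j := by
    simp [Matrix.trace, Matrix.mul_apply, Matrix.diag]
  rw [h]
  obtain ⟨i, j, hij⟩ : ∃ i j, x i j ≠ 0 := by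
    by_contra hcon
    apply hx
    ext i j
    by_contra h0
    exact hcon ⟨i, j, h0⟩
  refine Finset.sum_pos' (fun i _ => Finset.sum_nonneg fun j _ => mul_self_nonneg _)
    ⟨i, Finset.mem_univ i, ?_⟩
  exact Finset.sum_pos' (fun j _ => mul_self_nonneg _)
    ⟨j, Finset.mem_univ j, mul_self_pos.2 hij⟩

theorem tri_comm {m : ℕ} {x D : Matrix (Fin m) (Fin m) ℝ} {r : ℝ} (hD : Dᵀ = D)
    (h : D * x - x * D = r • x) :
    D * (x * xᵀ - xᵀ * x) = (x * xᵀ - xᵀ * x) * D ∧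
    Matrix.trace (D * (x * xᵀ - xᵀ * x)) = r * Matrix.trace (x * xᵀ) := by
  have h1 : D * x = x * D + r • x := by
    rw [← h]
    abel
  have h2 : xᵀ * D = D * xᵀ + r • xᵀ := by
    have := congrArg Matrix.transpose h1
    rw [Matrix.transpose_mul, Matrix.transpose_add, Matrix.transpose_mul,
      Matrix.transpose_smul, hD] at this
    exact this
  have h3 : D * xᵀ = xᵀ * D - r • xᵀ := by
    rw [h2]
    abel
  constructor
  · have e1 : D * (x * xᵀ) = (x * xᵀ) * D := by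
      rw [← Matrix.mul_assoc, h1, Matrix.add_mul, Matrix.mul_assoc, h3, Matrix.mul_sub,
        Matrix.mul_smul, Matrix.smul_mul, Matrix.mul_assoc]
      abel
    have e2 : D * (xᵀ * x) = (xᵀ * x) * D := by
      rw [← Matrix.mul_assoc, h3, Matrix.sub_mul, Matrix.mul_assoc, h1, Matrix.mul_add,
        Matrix.mul_smul, Matrix.smul_mul, Matrix.mul_assoc]
      abel
    rw [Matrix.mul_sub, Matrix.sub_mul, e1, e2]
  · have e3 : Matrix.trace (D * (xᵀ * x)) = Matrix.trace (x * D * xᵀ) := by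
      rw [← Matrix.mul_assoc, Matrix.trace_mul_comm, ← Matrix.mul_assoc]
    rw [Matrix.mul_sub, Matrix.trace_sub, e3, ← Matrix.mul_assoc, ← Matrix.trace_sub,
      ← Matrix.sub_mul, h, Matrix.smul_mul, Matrix.trace_smul, smul_eq_mul]

/-- TRI. -/
theorem tri (_gwb : GwbStmt) : TriStmt := by
  intro X S μ x hx
  obtain ⟨hxg, hx0, hw⟩ := hx
  refine ⟨tri_pos hx0, ?_⟩
  have hmem : x * xᵀ - xᵀ * x ∈ S.g := S.lie x hxg xᵀ (S.tr x hxg)
  have hsym : (x * xᵀ - xᵀ * x)ᵀ = x * xᵀ - xᵀ * x := by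
    rw [Matrix.transpose_sub, Matrix.transpose_mul, Matrix.transpose_mul,
      Matrix.transpose_transpose]
  have hcom := fun c : X.b => tri_comm (Matrix.diagonal_transpose (c : Fin X.m → ℝ)) (hw c)
  obtain ⟨d, hd⟩ := S.reg _ hmem hsym (hcom S.a₀).1
  have hdb : d ∈ X.b := by
    rw [S.b_mem, ← hd]
    exact hmem
  have key : ∀ c : X.b, bil X c ⟨d, hdb⟩ = μ c * Matrix.trace (x * xᵀ) := by
    intro c
    rw [← (hcom c).2, hd, Matrix.diagonal_mul_diagonal, Matrix.trace_diagonal, bil_apply]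
  have hz : (⟨d, hdb⟩ : X.b) - Matrix.trace (x * xᵀ) • tv X μ = 0 := by
    apply bil_self_eq_zero X
    rw [map_sub, map_smul, key, bil_comm X _ (tv X μ), bil_tv, smul_eq_mul]
    ring
  have hd2 : (⟨d, hdb⟩ : X.b) = Matrix.trace (x * xᵀ) • tv X μ := sub_eq_zero.1 hz
  have hd3 : d = Matrix.trace (x * xᵀ) • (tv X μ : Fin X.m → ℝ) := congrArg Subtype.val hd2
  rw [hd]
  calc Matrix.diagonal d = Matrix.diagonal (Matrix.trace (x * xᵀ) • (tv X μ : Fin X.m → ℝ)) :=
        congrArg Matrix.diagonal hd3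
    _ = _ := Matrix.diagonal_smul _ _

end Pool.Agent.QSB.H63
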